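import Pool.Agent.PLevel.Words
import Mathlib.Logic.Relation
import Mathlib.Tactic.Tauto

set_option autoImplicit false

/-!
# From sequences of pairwise strongly separated sets to arrangements of pseudolines
-/

namespace Pool.Agent.PSW

open Pool.Agent.PLevel Finset

/-! ### Linear orders from closed and co-closed sets of inversions -/

section Order

variable {n : ℕ} (I : Fin n → Fin n → Prop)

/-- the order with inversion set `I` -/
def lt' (x y : Fin n) : Prop := (x < y ∧ ¬ I x y) ∨ (y < x ∧ I y x)

/-- closed and co-closed -/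
structure Clo : Prop where
  tr : ∀ x y z, x < y → y < z → I x y → I y z → I x z
  co : ∀ x y z, x < y → y < z → I x z → I x y ∨ I y z

variable {I}

theorem lt'_irrefl (x : Fin n) : ¬ lt' I x x := by
  rintro (⟨h, _⟩ | ⟨h, _⟩) <;> exact lt_irrefl _ h

theorem lt'_total {x y : Fin n} (h : x ≠ y) : lt' I x y ∨ lt' I y x := by
  unfold lt'
  rcases lt_or_gt_of_ne h with h1 | h1
  · by_cases h2 : I x y
    · exact Or.inr (Or.inr ⟨h1, h2⟩)
    · exact Or.inl (Or.inl ⟨h1, h2⟩)
  · by_cases h2 : I y x
    · exact Or.inl (Or.inr ⟨h1, h2⟩)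
    · exact Or.inr (Or.inl ⟨h1, h2⟩)

theorem lt'_asymm {x y : Fin n} (h : lt' I x y) : ¬ lt' I y x := by
  rintro h2
  rcases h with ⟨h1, h3⟩ | ⟨h1, h3⟩ <;> rcases h2 with ⟨h4, h5⟩ | ⟨h4, h5⟩
  · exact lt_asymm h1 h4
  · exact h3 h5
  · exact h5 h3
  · exact lt_asymm h1 h4

theorem lt'_trans (hI : Clo I) {x y z : Fin n} (h : lt' I x y) (h' : lt' I y z) : lt' I x z := by
  have hne : x ≠ z := by
    rintro rfl
    exact lt'_asymm h h'
  unfold lt' at h h' ⊢
  rcases lt_or_gt_of_ne hne with hxz | hzx
  · left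
    refine ⟨hxz, fun hI1 => ?_⟩
    rcases h with ⟨h1, h2⟩ | ⟨h1, h2⟩
    · rcases h' with ⟨h3, h4⟩ | ⟨h3, h4⟩
      · rcases hI.co x y z h1 h3 hI1 with h5 | h5
        · exact h2 h5
        · exact h4 h5
      · -- x < z < y, I z y, I x z
        exact h2 (hI.tr x z y hxz h3 hI1 h4)
    · rcases h' with ⟨h3, h4⟩ | ⟨h3, h4⟩
      · -- y < x < z, I y x
        exact h4 (hI.tr y x z h1 hxz h2 hI1)
      · exact absurd (h3.trans h1) (lt_asymm hxz)
  · right
    refine ⟨hzx, ?_⟩
    rcases h with ⟨h1, h2⟩ | ⟨h1, h2⟩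
    · rcases h' with ⟨h3, h4⟩ | ⟨h3, h4⟩
      · exact absurd (h1.trans h3) (lt_asymm hzx)
      · -- z < x < y, I z y
        rcases hI.co z x y hzx h1 h4 with h5 | h5
        · exact h5
        · exact absurd h5 h2
    · rcases h' with ⟨h3, h4⟩ | ⟨h3, h4⟩
      · -- y < z < x, I y x
        rcases hI.co y z x h3 hzx h2 with h5 | h5
        · exact absurd h5 h4
        · exact h5
      · exact hI.tr z y x h3 h1 h4 h2

open Classical in
/-- the elements before `x` -/
noncomputable def below (I : Fin n → Fin n → Prop) (x : Fin n) : Finset (Fin n) :=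
  univ.filter (fun y => lt' I y x)

theorem mem_below {x y : Fin n} : y ∈ below I x ↔ lt' I y x := by
  classical
  unfold below
  rw [mem_filter]
  simp

theorem below_card_lt (x : Fin n) : (below I x).card < n := by
  classical
  have h : below I x ⊂ univ := by
    rw [ssubset_univ_iff]
    intro h
    have : x ∈ below I x := by rw [h]; exact mem_univ x
    exact lt'_irrefl x (mem_below.1 this)
  have := card_lt_card h
  simpa using this

/-- the position of `x` -/
noncomputable def pos (I : Fin n → Fin n → Prop) (x : Fin n) : Fin n :=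
  ⟨(below I x).card, below_card_lt x⟩

theorem pos_lt (hI : Clo I) {x y : Fin n} (h : lt' I x y) : pos I x < pos I y := by
  classical
  rw [Fin.lt_def]
  show (below I x).card < (below I y).card
  apply card_lt_card
  rw [ssubset_iff_of_subset]
  · exact ⟨x, mem_below.2 h, fun h2 => lt'_irrefl x (mem_below.1 h2)⟩
  · intro z hz
    exact mem_below.2 (lt'_trans hI (mem_below.1 hz) h)

theorem pos_lt_iff (hI : Clo I) {x y : Fin n} : pos I x < pos I y ↔ lt' I x y := by
  refine ⟨fun h => ?_, pos_lt hI⟩
  by_cases hxy : x = y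
  · subst hxy
    exact absurd h (lt_irrefl _)
  · rcases lt'_total (I := I) hxy with h1 | h1
    · exact h1
    · exact absurd (pos_lt hI h1) (lt_asymm h)

theorem pos_inj (hI : Clo I) : Function.Injective (pos I) := by
  intro x y h
  by_contra hne
  rcases lt'_total (I := I) hne with h1 | h1
  · have := pos_lt hI h1
    rw [h] at this
    exact lt_irrefl _ this
  · have := pos_lt hI h1
    rw [h] at this
    exact lt_irrefl _ this

/-- the permutation with inversion set `I`: position to element -/
noncomputable def perm (hI : Clo I) : Equiv.Perm (Fin n) :=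
  (Equiv.ofBijective (pos I) (Finite.injective_iff_bijective.1 (pos_inj hI))).symm

theorem perm_symm (hI : Clo I) (x : Fin n) : (perm hI).symm x = pos I x := rfl

end Order

/-! ### The inversions forced by a sequence of sets -/

section Seq

variable {n : ℕ} (B : ℕ → Finset (Fin n))

/-- one inversion forced by `B s`, `s ≤ t` -/
def Stp (t : ℕ) (x y : Fin n) : Prop := x < y ∧ ∃ s ≤ t, x ∉ B s ∧ y ∈ B s

/-- all inversions forced up to the time `t` -/
def RR (t : ℕ) : Fin n → Fin n → Prop := Relation.TransGen (Stp B t)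

variable {B}

theorem RR_lt {t : ℕ} {x y : Fin n} (h : RR B t x y) : x < y := by
  induction h with
  | single h => exact h.1
  | tail _ h ih => exact ih.trans h.1

theorem Stp_co {t : ℕ} {x y z : Fin n} (h1 : x < y) (h2 : y < z) (h : Stp B t x z) :
    Stp B t x y ∨ Stp B t y z := by
  obtain ⟨_, s, hs, hx, hz⟩ := h
  by_cases hy : y ∈ B s
  · exact Or.inl ⟨h1, s, hs, hx, hy⟩
  · exact Or.inr ⟨h2, s, hs, hy, hz⟩

theorem RR_co {t : ℕ} {x z : Fin n} (h : RR B t x z) : ∀ y, x < y → y < z →
    RR B t x y ∨ RR B t y z := by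
  induction h with
  | single h =>
    intro y h1 h2
    rcases Stp_co h1 h2 h with h3 | h3
    · exact Or.inl (Relation.TransGen.single h3)
    · exact Or.inr (Relation.TransGen.single h3)
  | @tail b c hb hc ih =>
    intro y h1 h2
    rcases lt_trichotomy y b with h3 | h3 | h3
    · rcases ih y h1 h3 with h4 | h4
      · exact Or.inl h4
      · exact Or.inr (h4.tail hc)
    · subst h3
      exact Or.inl hb
    · rcases Stp_co h3 h2 hc with h4 | h4
      · exact Or.inl (Relation.TransGen.tail hb h4)
      · exact Or.inr (Relation.TransGen.single h4)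

theorem RR_clo (t : ℕ) : Clo (RR B t) where
  tr := fun _ _ _ _ _ h1 h2 => h1.trans h2
  co := fun _ y _ h1 h2 h => RR_co h y h1 h2

theorem RR_mono {s t : ℕ} (h : s ≤ t) {x y : Fin n} (hxy : RR B s x y) : RR B t x y := by
  have key : ∀ a b : Fin n, Stp B s a b → Stp B t a b := by
    rintro a b ⟨h1, r, hr, h2⟩
    exact ⟨h1, r, hr.trans h, h2⟩
  unfold RR at hxy ⊢
  induction hxy with
  | single h => exact Relation.TransGen.single (key _ _ h)
  | tail _ h ih => exact Relation.TransGen.tail ih (key _ _ h)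

theorem RR_mem {T t : ℕ} (hsep : ∀ s t, s < t → t ≤ T → ∀ x y, x ∈ B s → x ∉ B t → y ∈ B t →
    y ∉ B s → x < y) (ht : t ≤ T) {x y : Fin n} (h : RR B t x y) (hx : x ∈ B t) : y ∈ B t := by
  have key : ∀ a b : Fin n, Stp B t a b → a ∈ B t → b ∈ B t := by
    rintro a b ⟨hab, s, hs, ha, hb⟩ hat
    by_contra hbt
    rcases Nat.lt_or_ge s t with h1 | h1
    · exact lt_asymm hab (hsep s t h1 ht b a hb hbt hat ha)
    · have : s = t := le_antisymm hs h1
      subst this
      exact hbt hb
  induction h with
  | single h => exact key _ _ h hx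
  | tail _ h ih => exact key _ _ h ih

theorem RR_sep {T t : ℕ} (hsep : ∀ s t, s < t → t ≤ T → ∀ x y, x ∈ B s → x ∉ B t → y ∈ B t →
    y ∉ B s → x < y) (ht : t ≤ T) {x y : Fin n} (hx : x ∈ B t) (hy : y ∉ B t) :
    lt' (RR B t) x y := by
  have hne : x ≠ y := by
    rintro rfl
    exact hy hx
  rcases lt_or_gt_of_ne hne with h | h
  · exact Or.inl ⟨h, fun h2 => hy (RR_mem hsep ht h2 hx)⟩
  · exact Or.inr ⟨h, Relation.TransGen.single ⟨h, t, le_rfl, hy, hx⟩⟩

/-- A sequence of different `k`-sets which are pairwise strongly separated in the order of the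
sequence is realised by an arrangement of pseudolines. -/
theorem reduction {k T : ℕ} (B : ℕ → Finset (Fin n)) (hk : ∀ t ≤ T, (B t).card = k)
    (hne : ∀ t < T, B t ≠ B (t + 1))
    (hsep : ∀ s t, s < t → t ≤ T → ∀ x y, x ∈ B s → x ∉ B t → y ∈ B t → y ∉ B s → x < y) :
    ∃ w, Sweep n 1 w Fin.revPerm ∧ T ≤ w.count (k - 1) := by
  classical
  set P : ℕ → Equiv.Perm (Fin n) := fun t => perm (RR_clo (B := B) t) with hP
  have hweak : ∀ s t, s ≤ t → Weak (P s) (P t) := by
    intro s t hst a b hab h
    rw [hP] at h ⊢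
    simp only [perm_symm] at h ⊢
    rw [pos_lt_iff (RR_clo s)] at h
    rw [pos_lt_iff (RR_clo t)]
    rcases h with ⟨h1, _⟩ | ⟨_, h1⟩
    · exact absurd hab (lt_asymm h1)
    · exact Or.inr ⟨hab, RR_mono hst h1⟩
  have hA : ∀ e ∈ (List.range T).map (fun t => (P t, P (t + 1))), Weak e.1 e.2 ∧
      ∃ p : Fin n, p.1 ≤ k - 1 ∧ k - 1 < (e.2.symm (e.1 p)).1 := by
    intro e he
    rw [List.mem_map] at he
    obtain ⟨t, ht, rfl⟩ := he
    rw [List.mem_range] at ht
    refine ⟨hweak _ _ (Nat.le_succ t), ?_⟩
    -- an element which leaves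
    have h1 : ∃ x, x ∈ B t ∧ x ∉ B (t + 1) := by
      by_contra hno
      push Not at hno
      apply hne t ht
      apply eq_of_subset_of_card_le hno
      rw [hk t ht.le, hk (t + 1) ht]
    obtain ⟨x, hx, hx'⟩ := h1
    refine ⟨pos (RR B t) x, ?_, ?_⟩
    · have h2 : below (RR B t) x ⊆ (B t).erase x := by
        intro y hy
        rw [mem_below] at hy
        rw [mem_erase]
        refine ⟨?_, ?_⟩
        · rintro rfl
          exact lt'_irrefl _ hy
        · by_contra hyB
          exact lt'_asymm hy (RR_sep hsep ht.le hx hyB)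
      have h3 := card_le_card h2
      rw [card_erase_of_mem hx, hk t ht.le] at h3
      exact h3
    · have h2 : B (t + 1) ⊆ below (RR B (t + 1)) x := by
        intro y hy
        rw [mem_below]
        exact RR_sep hsep ht hy hx'
      have h3 := card_le_card h2
      rw [hk (t + 1) ht] at h3
      have h4 : (P (t + 1)).symm (P t (pos (RR B t) x)) = pos (RR B (t + 1)) x := by
        have h5 : P t (pos (RR B t) x) = x := by
          rw [hP]
          simp only
          rw [← perm_symm (RR_clo t) x, Equiv.apply_symm_apply]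
        rw [h5]
        rfl
      show k - 1 < ((P (t + 1)).symm (P t (pos (RR B t) x))).1
      rw [h4]
      have h6 : 0 < k := by
        rw [← hk t ht.le]
        exact card_pos.2 ⟨x, hx⟩
      have h7 : (pos (RR B (t + 1)) x).1 = (below (RR B (t + 1)) x).card := rfl
      rw [h7]
      omega
  have hB : ((List.range T).map (fun t => (P t, P (t + 1)))).Pairwise
      (fun e e' => Weak e.2 e'.1) := by
    rw [List.pairwise_map]
    refine List.Pairwise.imp ?_ List.pairwise_lt_range
    intro a b hab
    exact hweak _ _ hab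
  obtain ⟨w, hw, hl⟩ := exists_chain (n := n) (k - 1)
    ((List.range T).map (fun t => (P t, P (t + 1)))) 1 (fun e _ => weak_one _) hA hB
  refine ⟨w, hw, ?_⟩
  rwa [List.length_map, List.length_range] at hl

end Seq

end Pool.Agent.PSW
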