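import Pool.Agent.PSW.Red
import Mathlib.Data.Sigma.Order
import Mathlib.Data.Fintype.Sigma
import Mathlib.Order.Hom.Basic
import Mathlib.Data.Fintype.BigOperators
import Mathlib.Algebra.BigOperators.Fin
import Mathlib.Data.Fintype.Sort
import Mathlib.Algebra.Order.BigOperators.Group.Finset
import Mathlib.Tactic.Ring

set_option autoImplicit false

/-!
# Sequences of occupation numbers and walks with unimodal windows
-/

namespace Pool.Agent.PSW

open Pool.Agent.PLevel Finset

/-- Occupation numbers of `r` types: between two times the types which lose elements come before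
the types which gain elements. -/
theorem types {r T k : ℕ} (o : Fin r → ℕ) (c : ℕ → Fin r → ℕ) (hc : ∀ t ≤ T, ∀ j, c t j ≤ o j)
    (hk : ∀ t ≤ T, ∑ j, c t j = k) (hne : ∀ t < T, c t ≠ c (t + 1))
    (hsep : ∀ s t, s < t → t ≤ T → ∀ i l, i < l → c s i < c t i → c t l < c s l → False) :
    ∃ w, Sweep (∑ j, o j) 1 w Fin.revPerm ∧ T ≤ w.count (k - 1) := by
  classical
  have hcard : Fintype.card (Σₗ j : Fin r, Fin (o j)) = ∑ j, o j := by
    have h1 : Fintype.card (Σₗ j : Fin r, Fin (o j)) = Fintype.card (Σ j : Fin r, Fin (o j)) := rfl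
    rw [h1, Fintype.card_sigma]
    simp
  let e : Fin (∑ j, o j) ≃o (Σₗ j : Fin r, Fin (o j)) :=
    Fintype.orderIsoFinOfCardEq _ hcard
  set B : ℕ → Finset (Fin (∑ j, o j)) := fun t =>
    univ.filter (fun x => ((e x).2 : ℕ) < c t (e x).1) with hB
  have mem : ∀ t x, x ∈ B t ↔ ((e x).2 : ℕ) < c t (e x).1 := by
    intro t x
    rw [hB]
    simp
  have hBk : ∀ t ≤ T, (B t).card = k := by
    intro t ht
    rw [← hk t ht]
    have h1 : (B t).card = ((univ : Finset (Σ j : Fin r, Fin (o j))).filter
        (fun z => (z.2 : ℕ) < c t z.1)).card := by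
      apply card_bij (fun x _ => (ofLex (e x) : Σ j : Fin r, Fin (o j)))
      · intro x hx
        exact mem_filter.2 ⟨mem_univ _, (mem t x).1 hx⟩
      · intro x _ y _ hxy
        exact e.injective (ofLex.injective hxy)
      · intro z hz
        have hz' := (mem_filter.1 hz).2
        refine ⟨e.symm (toLex z), ?_, ?_⟩
        · rw [mem, e.apply_symm_apply]
          exact hz'
        · rw [e.apply_symm_apply]
          rfl
    rw [h1]
    have h2 : ((univ : Finset (Σ j : Fin r, Fin (o j))).filter (fun z => (z.2 : ℕ) < c t z.1))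
        = univ.sigma (fun j => univ.filter (fun q : Fin (o j) => (q : ℕ) < c t j)) := by
      ext ⟨j, q⟩
      simp
    rw [h2, card_sigma]
    apply sum_congr rfl
    intro j _
    rw [Fin.card_filter_val_lt]
    exact min_eq_right (hc t ht j)
  apply reduction B hBk
  · intro t ht h
    apply hne t ht
    have key : ∀ s s', s ≤ T → s' ≤ T → B s = B s' → ∀ j, c s j ≤ c s' j := by
      intro s s' hs hs' hss j
      by_contra hlt
      push Not at hlt
      have h1 : c s' j < o j := lt_of_lt_of_le hlt (hc s hs j)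
      set x := e.symm (toLex (⟨j, ⟨c s' j, h1⟩⟩ : Σ j : Fin r, Fin (o j))) with hx
      have hex : e x = toLex (⟨j, ⟨c s' j, h1⟩⟩ : Σ j : Fin r, Fin (o j)) := e.apply_symm_apply _
      have h2 : x ∈ B s := by
        rw [mem, hex]
        exact hlt
      rw [hss, mem, hex] at h2
      exact lt_irrefl _ h2
    funext j
    exact le_antisymm (key t (t + 1) ht.le ht h j) (key (t + 1) t ht ht.le h.symm j)
  · intro s t hst ht x y hxs hxt hyt hys
    rw [mem] at hxs hxt hyt hys
    push Not at hxt hys
    have hxy : (e x).1 ≤ (e y).1 := by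
      by_contra hlt
      push Not at hlt
      exact hsep s t hst ht _ _ hlt (by omega) (by omega)
    rcases lt_or_eq_of_le hxy with h | h
    · rw [← e.lt_iff_lt, Sigma.Lex.lt_def]
      exact Or.inl h
    · exfalso
      have h1 : c t (e x).1 < c s (e x).1 := by omega
      have h2 : c s (e y).1 < c t (e y).1 := by omega
      rw [← h] at h2
      omega

/-- number of visits of the site `j` before the time `t` -/
def loc (a : ℕ → ℕ) (j t : ℕ) : ℕ := ((range t).filter (fun u => a u = j)).card

/-- number of visits of the site `j - 1` minus the number of visits of the site `j` before the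
time `t` -/
def dif (a : ℕ → ℕ) (j t : ℕ) : ℤ := (if j = 0 then 0 else (loc a (j - 1) t : ℤ)) - loc a j t

theorem loc_succ (a : ℕ → ℕ) (j t : ℕ) : loc a j (t + 1) = loc a j t + if a t = j then 1 else 0 := by
  unfold loc
  rw [range_add_one, filter_insert]
  split_ifs with h
  · rw [card_insert_of_notMem]
    simp
  · rfl

theorem sum_dif (a : ℕ → ℕ) (r t : ℕ) : ∑ j ∈ range (r + 1), dif a j t = - (loc a r t : ℤ) := by
  induction r with
  | zero => simp [dif]
  | succ r ih =>
    rw [sum_range_succ, ih]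
    simp [dif]
    ring

/-- Walks on the sites `0, ..., r - 1` with unimodal windows, the types are `0, ..., r`. The
numbers `lo j ≤ dif a j t ≤ hi j` bound the oscillation of the differences of the local times. -/
theorem walk {r T : ℕ} (a : ℕ → ℕ) (ha : ∀ t < T, a t < r) (lo hi : ℕ → ℤ)
    (hlo : ∀ j ≤ r, ∀ t ≤ T, lo j ≤ dif a j t) (hhi : ∀ j ≤ r, ∀ t ≤ T, dif a j t ≤ hi j)
    (huni : ∀ s t, s < t → t ≤ T → ∀ i l, i < l → l ≤ r → dif a i s < dif a i t →
      dif a l t < dif a l s → False) :
    ∃ (k : ℕ) (w : List ℕ), Sweep (∑ j ∈ range (r + 1), (hi j - lo j).toNat) 1 w Fin.revPerm ∧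
      k ≤ ∑ j ∈ range (r + 1), (hi j - lo j).toNat ∧ T ≤ w.count (k - 1) := by
  have hL : ∀ t ≤ T, loc a r t = 0 := by
    intro t ht
    unfold loc
    rw [card_eq_zero, filter_eq_empty_iff]
    intro u hu
    rw [mem_range] at hu
    exact (ha u (lt_of_lt_of_le hu ht)).ne
  have hsum : ∀ t ≤ T, ∑ j ∈ range (r + 1), dif a j t = 0 := by
    intro t ht
    rw [sum_dif, hL t ht]
    simp
  have hj : ∀ j : Fin (r + 1), (j : ℕ) ≤ r := fun j => Nat.lt_succ_iff.1 j.2
  have hS : ∀ t ≤ T, ∑ j : Fin (r + 1), (dif a j t - lo j).toNat =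
      (∑ j ∈ range (r + 1), (- lo j)).toNat := by
    intro t ht
    have h1 : ((∑ j : Fin (r + 1), (dif a j t - lo j).toNat : ℕ) : ℤ) =
        ∑ j ∈ range (r + 1), (- lo j) := by
      rw [Nat.cast_sum]
      have h2 : ∀ j : Fin (r + 1), ((dif a j t - lo j).toNat : ℤ) = dif a j t - lo j :=
        fun j => Int.toNat_of_nonneg (sub_nonneg.2 (hlo j (hj j) t ht))
      rw [Finset.sum_congr rfl (fun j _ => h2 j)]
      rw [Fin.sum_univ_eq_sum_range (fun j => dif a j t - lo j) (r + 1)]
      rw [sum_sub_distrib, hsum t ht, zero_sub, sum_neg_distrib]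
    omega
  have hn : ∑ j : Fin (r + 1), (hi j - lo j).toNat =
      ∑ j ∈ range (r + 1), (hi j - lo j).toNat :=
    Fin.sum_univ_eq_sum_range (fun j => (hi j - lo j).toNat) (r + 1)
  have h1 : ∀ t ≤ T, ∀ j : Fin (r + 1), (dif a j t - lo j).toNat ≤ (hi j - lo j).toNat := by
    intro t ht j
    have := hhi j (hj j) t ht
    omega
  have h2 : ∀ t < T, (fun j : Fin (r + 1) => (dif a j t - lo j).toNat) ≠
      (fun j : Fin (r + 1) => (dif a j (t + 1) - lo j).toNat) := by
    intro t ht h
    have h1 := congrFun h ⟨a t + 1, by have := ha t ht; omega⟩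
    simp only at h1
    have h2 : dif a (a t + 1) (t + 1) = dif a (a t + 1) t + 1 := by
      unfold dif
      rw [if_neg (by omega), if_neg (by omega), Nat.add_sub_cancel, loc_succ, loc_succ, if_pos rfl,
        if_neg (by omega)]
      push_cast
      ring
    have h3 := hlo (a t + 1) (ha t ht) t ht.le
    have h4 := hlo (a t + 1) (ha t ht) (t + 1) ht
    omega
  have h3 : ∀ s t, s < t → t ≤ T → ∀ i l : Fin (r + 1), i < l →
      (dif a i s - lo i).toNat < (dif a i t - lo i).toNat →
      (dif a l t - lo l).toNat < (dif a l s - lo l).toNat → False := by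
    intro s t hst ht i l hil h1 h2
    apply huni s t hst ht i l hil (hj l)
    · have := hlo i (hj i) s (by omega)
      omega
    · have := hlo l (hj l) t ht
      omega
  obtain ⟨w, hw, hT⟩ := types (r := r + 1) (T := T) (k := (∑ j ∈ range (r + 1), (- lo j)).toNat)
    (fun j => (hi j - lo j).toNat) (fun t j => (dif a j t - lo j).toNat) h1 hS h2 h3
  rw [hn] at hw
  refine ⟨_, w, hw, ?_, hT⟩
  rw [← hS 0 (Nat.zero_le T), ← hn]
  exact Finset.sum_le_sum (fun j _ => h1 0 (Nat.zero_le T) j)

end Pool.Agent.PSW
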